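import Pool.Agent.Helper98.EY.StmtsB

/-!
# Module HYP: the hypotheses of the brigade hold
-/

set_option autoImplicit false

namespace Pool.Agent.Helper98.EX

open Finset

/-! ### numbers -/

theorem hyp_n {N : ℕ} (hK : 20000 ≤ Real.log N) : 0 < (N : ℝ) ∧ (N : ℝ) = Real.exp (Real.log N) := by
  have h0 : (N : ℝ) ≠ 0 := by
    intro h
    rw [h, Real.log_zero] at hK
    linarith
  have h1 : 0 < (N : ℝ) := lt_of_le_of_ne (Nat.cast_nonneg N) (Ne.symm h0)
  exact ⟨h1, (Real.exp_log h1).symm⟩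

theorem hyp_poly {N : ℕ} (hK : 20000 ≤ Real.log N) : 128 * Real.log N ^ 4 ≤ N := by
  obtain ⟨h1, h2⟩ := hyp_n hK
  have h3 := Real.pow_div_factorial_le_exp (Real.log N) (by linarith) 5
  rw [← h2] at h3
  have h4 : (Nat.factorial 5 : ℝ) = 120 := by norm_num [Nat.factorial]
  rw [h4] at h3
  have h5 : 0 ≤ Real.log N ^ 4 := by positivity
  have h6 : Real.log N ^ 5 = Real.log N ^ 4 * Real.log N := by ring
  rw [h6] at h3
  nlinarith

theorem hyp_rpow {N : ℕ} (hK : 20000 ≤ Real.log N) (k : ℕ) :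
    (N : ℝ) ^ (-(k : ℝ)) = ((N : ℝ) ^ k)⁻¹ := by
  obtain ⟨h1, h2⟩ := hyp_n hK
  rw [Real.rpow_neg h1.le, Real.rpow_natCast]

theorem hyp_exp {N : ℕ} (hK : 20000 ≤ Real.log N) {x : ℝ} (hx : x ≤ -(10 * Real.log N)) :
    Real.exp x ≤ ((N : ℝ) ^ 10)⁻¹ := by
  obtain ⟨h1, h2⟩ := hyp_n hK
  have h3 : ((N : ℝ) ^ 10)⁻¹ = Real.exp (-(10 * Real.log N)) := by
    rw [Real.exp_neg]
    congr 1
    conv_lhs => rw [h2]
    rw [← Real.exp_nat_mul]
    norm_num
  rw [h3]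
  exact Real.exp_le_exp.2 hx

theorem hyp_fin {N : ℕ} (hK : 20000 ≤ Real.log N) {x y : ℝ} (hx : x ≤ ((N : ℝ) ^ 10)⁻¹)
    (hy : y ≤ ((N : ℝ) ^ 10)⁻¹) : x + y ≤ (N : ℝ) ^ (-9 : ℝ) := by
  obtain ⟨h1, h2⟩ := hyp_n hK
  have h3 : (-9 : ℝ) = -((9 : ℕ) : ℝ) := by norm_num
  rw [h3, hyp_rpow hK]
  have h4 := hyp_poly hK
  have h5 : (2 : ℝ) ≤ N := by
    have h6 : (1 : ℝ) ≤ Real.log N ^ 4 := one_le_pow₀ (by linarith)
    linarith
  have h7 : ((N : ℝ) ^ 9)⁻¹ = N * ((N : ℝ) ^ 10)⁻¹ := by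
    field_simp
  rw [h7]
  have h8 : 0 < ((N : ℝ) ^ 10)⁻¹ := by positivity
  nlinarith

theorem hyp_e (w : ℕ) (hw : 1 ≤ w) : (1 + 1 / (w : ℝ)) ^ w ≤ 3 := by
  have hw0 : (0 : ℝ) < w := by exact_mod_cast hw
  have h1 : (1 + 1 / (w : ℝ)) ≤ Real.exp (1 / (w : ℝ)) := by
    have := Real.add_one_le_exp (1 / (w : ℝ))
    linarith
  have h2 : (1 + 1 / (w : ℝ)) ^ w ≤ Real.exp (1 / (w : ℝ)) ^ w :=
    pow_le_pow_left₀ (by positivity) h1 w
  rw [← Real.exp_nat_mul, mul_one_div_cancel hw0.ne'] at h2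
  have h3 := Real.exp_one_lt_d9
  linarith

/-! ### weights -/

theorem hyp_RR {r l : ℕ → ℝ} (h : ∀ x, 0 < r x ∧ 0 ≤ l x) (z y : ℕ) : 0 ≤ RR r l z y :=
  Finset.prod_nonneg fun b _ => div_nonneg (h b).2 (h b).1.le

theorem hyp_vp {r l : ℕ → ℝ} (h : ∀ x, 0 < r x ∧ 0 ≤ l x) (z y : ℕ) : 0 ≤ vp r l z y :=
  div_nonneg (hyp_RR h z y) (h _).1.le

theorem hyp_vh {r l : ℕ → ℝ} (h : ∀ x, 0 < r x ∧ 0 ≤ l x) (z y : ℕ) : 0 ≤ vh r l z y :=
  div_nonneg (hyp_RR h z y) (h _).1.le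

theorem hyp_atb {r l : ℕ → ℝ} (h : ∀ x, 0 < r x ∧ 0 ≤ l x) {w a y : ℕ} (hw : 1 ≤ w) {b : ℝ}
    (hb : 0 ≤ b) (hvp : ∀ d, d < w → a + d ≤ y → vp r l (y - d) y ≤ b) :
    atb r l (1 / w) w a y ≤ w * (1 + 1 / (w : ℝ)) ^ w * b := by
  unfold atb
  have hw0 : (0 : ℝ) < w := by exact_mod_cast hw
  have h1 : ∀ d ∈ Finset.range (min w (y + 1 - a)), (1 + 1 / (w : ℝ)) ^ (d + 1) *
      vp r l (y - d) y ≤ (1 + 1 / (w : ℝ)) ^ w * b := by
    intro d hd
    rw [Finset.mem_range] at hd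
    have h2 : (1 + 1 / (w : ℝ)) ^ (d + 1) ≤ (1 + 1 / (w : ℝ)) ^ w := by
      refine pow_le_pow_right₀ ?_ (by omega)
      have : 0 ≤ 1 / (w : ℝ) := by positivity
      linarith
    exact mul_le_mul h2 (hvp d (by omega) (by omega)) (hyp_vp h _ _) (by positivity)
  refine (Finset.sum_le_sum h1).trans ?_
  rw [Finset.sum_const, Finset.card_range, nsmul_eq_mul, mul_assoc]
  refine mul_le_mul_of_nonneg_right ?_ (by positivity)
  exact_mod_cast min_le_left _ _

theorem hyp_atb_nonneg {r l : ℕ → ℝ} (h : ∀ x, 0 < r x ∧ 0 ≤ l x) (w a y : ℕ) :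
    0 ≤ atb r l (1 / w) w a y := by
  unfold atb
  refine Finset.sum_nonneg fun d _ => ?_
  have : 0 ≤ 1 / (w : ℝ) := by positivity
  exact mul_nonneg (by positivity) (hyp_vp h _ _)

theorem hyp_atb_mono {r l : ℕ → ℝ} (h : ∀ x, 0 < r x ∧ 0 ≤ l x) (w y : ℕ) {a a' : ℕ}
    (haa : a' ≤ a) : atb r l (1 / w) w a y ≤ atb r l (1 / w) w a' y := by
  unfold atb
  refine Finset.sum_le_sum_of_subset_of_nonneg ?_ fun d _ _ => ?_
  · intro d hd
    rw [Finset.mem_range] at hd ⊢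
    omega
  · have : 0 ≤ 1 / (w : ℝ) := by positivity
    exact mul_nonneg (by positivity) (hyp_vp h _ _)

/-! ### one particle -/

theorem hyp_mv (hM : ST_MOVE2) {N τ w : ℕ} {r l : ℕ → ℝ} {θ C1 : ℝ} (hK : 20000 ≤ Real.log N)
    (hG : GE N r l w C1) (hθ : Real.log N ^ 40 ≤ θ) (hτ : 8 * N * Real.log N ^ 12 * θ ≤ τ)
    {a m E : ℕ} {S : Finset ℕ} {η : Cfg N} (h1 : a < m) (h2 : m + w < E) (h3 : E ≤ N)
    (haS : a ∉ S) (hES : E ∉ S) (hS : ∀ x, a < x → x < E → x ∈ S) (hc : cnt η a E = 1)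
    (ho : occ η a = true)
    (hvp : ∀ y, a ≤ y → y < m + w → ∀ d, d < w → a + d ≤ y → vp r l (y - d) y ≤ θ)
    (hsum : ∑ y ∈ Finset.Ico a (m + w), atb r l (1 / w) w a y ≤ 3 * (θ * Real.log N ^ 12)) :
    pr r l (fun _ => S) τ {ξ | ∃ i, a ≤ i ∧ i < m ∧ occ ξ i = true} η ≤ (N : ℝ) ^ (-9 : ℝ) := by
  obtain ⟨hn1, hn2⟩ := hyp_n hK
  set Λ := Real.log N with hΛ
  have hΛ0 : 0 < Λ := by linarith
  have hpoly := hyp_poly hK
  rw [← hΛ] at hpoly
  have hw0 : (0 : ℝ) < w := by exact_mod_cast hG.w1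
  have hw1 : (1 : ℝ) ≤ w := by exact_mod_cast hG.w1
  have hwl : (w : ℝ) ≤ Λ ^ 2 := hG.wlog
  have hθ0 : 0 < θ := lt_of_lt_of_le (by positivity) hθ
  have he := hyp_e w hG.w1
  have heps : (N : ℝ) ^ (-11 : ℝ) = ((N : ℝ) ^ 11)⁻¹ := by
    have h3 : (-11 : ℝ) = -((11 : ℕ) : ℝ) := by norm_num
    rw [h3, hyp_rpow hK]
  have hpos : Pos N l := by
    intro x hx1 hx2
    exact lt_of_lt_of_le (Real.rpow_pos_of_pos hn1 _) (hG.low x hx1 hx2)
  have hmain := hM N r l (1 / w) (3 * w * θ) ((N : ℝ) ^ (-11 : ℝ)) w S a m E τ η hG.adm hpos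
    (by positivity) (by rw [div_le_one hw0]; exact hw1) hG.w1 (by positivity)
    (by rw [heps]; positivity) h1 h2 h3 haS hES hS hc ho ?_ ?_ ?_
  · refine hmain.trans (hyp_fin hK ?_ ?_)
    · refine hyp_exp hK ?_
      have h4 : (1 : ℝ) / w / (4 * (3 * w * θ)) = 1 / (12 * w ^ 2 * θ) := by
        field_simp
        ring
      rw [h4]
      have h5 : 4 * (Λ ^ 12 * θ) ≤ (τ : ℝ) / (2 * N) := by
        rw [le_div_iff₀ (by positivity)]
        nlinarith
      have h6 : ∑ y ∈ Finset.Ico a (m + w), atb r l (1 / w) w a y - (τ : ℝ) / (2 * N) ≤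
          -(θ * Λ ^ 12) := by nlinarith
      have h7 : 1 / (12 * (w : ℝ) ^ 2 * θ) *
          (∑ y ∈ Finset.Ico a (m + w), atb r l (1 / w) w a y - (τ : ℝ) / (2 * N)) ≤
          1 / (12 * (w : ℝ) ^ 2 * θ) * (-(θ * Λ ^ 12)) :=
        mul_le_mul_of_nonneg_left h6 (by positivity)
      refine h7.trans ?_
      have h8 : 1 / (12 * (w : ℝ) ^ 2 * θ) * (-(θ * Λ ^ 12)) = -(Λ ^ 12 / (12 * (w : ℝ) ^ 2)) := by
        field_simp
      rw [h8, neg_le_neg_iff, le_div_iff₀ (by positivity)]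
      have h9 : (w : ℝ) ^ 2 ≤ Λ ^ 4 := by
        have := pow_le_pow_left₀ hw0.le hwl 2
        calc (w : ℝ) ^ 2 ≤ (Λ ^ 2) ^ 2 := this
          _ = Λ ^ 4 := by ring
      have h10 : 10 * Λ * (12 * (w : ℝ) ^ 2) ≤ 120 * Λ ^ 5 := by nlinarith
      have h11 : (120 : ℝ) ≤ Λ ^ 7 := by
        calc (120 : ℝ) ≤ Λ := by linarith
          _ = Λ ^ 1 := (pow_one Λ).symm
          _ ≤ Λ ^ 7 := pow_le_pow_right₀ (by linarith) (by norm_num)
      have h12 : 120 * Λ ^ 5 ≤ Λ ^ 7 * Λ ^ 5 := mul_le_mul_of_nonneg_right h11 (by positivity)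
      calc 10 * Λ * (12 * (w : ℝ) ^ 2) ≤ 120 * Λ ^ 5 := h10
        _ ≤ Λ ^ 7 * Λ ^ 5 := h12
        _ = Λ ^ 12 := by ring
    · rw [heps]
      have h4 : (N : ℝ) * ((N : ℝ) ^ 11)⁻¹ = ((N : ℝ) ^ 10)⁻¹ := by
        field_simp
      exact h4.le
  · intro y hy1 hy2
    have h4 := hyp_atb hG.pos (w := w) (a := a) (y := y) hG.w1 hθ0.le (hvp y hy1 hy2)
    refine h4.trans ?_
    nlinarith [mul_pos hw0 hθ0]
  · intro y hy1 hy2
    have h4 : RR r l (y - w) y ≤ ((N : ℝ) ^ 11)⁻¹ := by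
      rw [← heps]
      exact hG.far (y - w) y (by omega) (by omega)
    have h5 : (1 + 1 / (w : ℝ)) ^ (w + 1) ≤ 6 := by
      rw [pow_succ]
      have h6 : 1 + 1 / (w : ℝ) ≤ 2 := by
        have : 1 / (w : ℝ) ≤ 1 := by rw [div_le_one hw0]; exact hw1
        linarith
      have h7 : 0 ≤ (1 + 1 / (w : ℝ)) ^ w := by positivity
      nlinarith
    have h8 : (1 + 1 / (w : ℝ)) ^ (w + 1) * RR r l (y - w) y ≤ 6 * ((N : ℝ) ^ 11)⁻¹ :=
      mul_le_mul h5 h4 (hyp_RR hG.pos _ _) (by norm_num)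
    refine h8.trans ?_
    rw [div_div, le_div_iff₀ (by positivity)]
    have h9 : 24 * (w : ℝ) ≤ N := by
      have h10 : Λ ^ 2 ≤ Λ ^ 4 := pow_le_pow_right₀ (by linarith) (by norm_num)
      nlinarith
    have h11 : (N : ℝ) ≤ (N : ℝ) ^ 11 := by
      have h12 : (1 : ℝ) ≤ N := by
        have h13 : (1 : ℝ) ≤ Λ ^ 4 := one_le_pow₀ (by linarith)
        linarith
      calc (N : ℝ) = (N : ℝ) ^ 1 := (pow_one _).symm
        _ ≤ (N : ℝ) ^ 11 := pow_le_pow_right₀ h12 (by norm_num)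
    have h14 : 6 * ((N : ℝ) ^ 11)⁻¹ * (w * 4) = 24 * w / (N : ℝ) ^ 11 := by
      field_simp
      ring
    rw [h14, div_le_one (by positivity)]
    linarith
  · intro z x hzx hx
    exact hG.far z x hzx hx

/-! ### monotonicity of the brigade data -/

theorem hyp_e_mono {L : BD} (hV : L.Valid) {u v : ℕ} (huv : u ≤ v) (hv : v ≤ L.V) :
    L.e u ≤ L.e v := by
  induction v, huv using Nat.le_induction with
  | base => exact le_rfl
  | succ v huv ih =>
    have h1 := hV.cell1 (v + 1) (by omega) hv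
    have h2 := hV.cell2 (v + 1) (by omega) hv
    have h3 := ih (by omega)
    rw [Nat.add_sub_cancel] at h1
    omega

theorem hyp_e_x0 {L : BD} (hV : L.Valid) {v : ℕ} (hv : v ≤ L.V) : L.e v + 4 * L.w ≤ L.x0 := by
  have h1 := hyp_e_mono hV hv le_rfl
  have h2 := hV.last
  omega

theorem hyp_G_x0 {L : BD} (hV : L.Valid) {v : ℕ} (hv1 : 1 ≤ v) : L.G v ≤ L.x0 := by
  unfold BD.G
  split_ifs with h
  · have h1 := hV.cell2 v hv1 h
    have h2 := hyp_e_x0 hV h
    omega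
  · exact le_rfl

/-! ### mirrored configurations -/

theorem hyp_cnt (hMIR : ST_MIR) {N : ℕ} (η : Cfg N) {a b : ℕ} (hab : a ≤ b) (hb : b ≤ N)
    (hc : cnt η a b + 1 = b - a) : cnt (mir η) (N - b) (N - a) = 1 := by
  obtain ⟨-, -, h3, -⟩ := hMIR N
  have e1 := h3 η (N - b) (by omega)
  have e2 := h3 η (N - a) (by omega)
  have e3 := ht_cnt (mir η) (A := N - b) (B := N - a) (by omega) (by omega)
  have e4 := ht_cnt η hab hb
  have e5 : N - (N - b) = b := by omega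
  have e6 : N - (N - a) = a := by omega
  rw [e5] at e1
  rw [e6] at e2
  omega

theorem hyp_mirS {N : ℕ} {S : Finset ℕ} {x : ℕ} (hx : x ≤ N) :
    N - x ∈ mirS N S ↔ x ∈ S ∧ 1 ≤ x ∧ x < N := by
  unfold mirS full
  rw [Finset.mem_image]
  constructor
  · rintro ⟨y, hy, hyx⟩
    rw [Finset.mem_inter, Finset.mem_Ico] at hy
    have : y = x := by omega
    rw [this] at hy
    exact hy
  · intro h
    exact ⟨x, by rw [Finset.mem_inter, Finset.mem_Ico]; exact h, rfl⟩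

theorem st_HYP (hM : ST_MOVE2) (hQ : ST_QG) (hMIR : ST_MIR) (hIM : ST_IMIR) : ST_HYP := by
  intro C1
  refine ⟨⌈Real.exp 20000⌉₊, ?_⟩
  intro N τ w r l θ L hN hG hV hLw hx0 hθ hOk hτ
  subst hLw
  have hK : 20000 ≤ Real.log N := by
    have h1 : Real.exp 20000 ≤ N := (Nat.le_ceil _).trans (by exact_mod_cast hN)
    rw [Real.le_log_iff_exp_le (lt_of_lt_of_le (Real.exp_pos _) h1)]
    exact h1
  obtain ⟨hn1, hn2⟩ := hyp_n hK
  set Λ := Real.log N with hΛ
  have hΛ0 : 0 < Λ := by linarith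
  have hw0 : (0 : ℝ) < L.w := by exact_mod_cast hV.w1
  have hw1 := hV.w1
  have hwl : (L.w : ℝ) ≤ Λ ^ 2 := hG.wlog
  have hθ0 : 0 < θ := lt_of_lt_of_le (by positivity) hθ
  have hpos : Pos N l := by
    intro x hx1 hx2
    exact lt_of_lt_of_le (Real.rpow_pos_of_pos hn1 _) (hG.low x hx1 hx2)
  refine ⟨?_, ?_, ?_⟩
  · -- particles
    intro v a S η hv1 hv2 hea hAa haG haS hGS hS hc ho
    have hGx := hyp_G_x0 hV hv1
    have hst : L.st v ≤ a := by
      unfold BD.st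
      omega
    have h1 := hyp_mv hM (τ := τ) (w := L.w) (a := a) (m := L.G v - 4 * L.w)
      (E := L.G v - 2 * L.w) (S := S) (η := η) hK hG hθ hτ (by omega) (by omega) (by omega) haS
      hGS hS hc ho ?_ ?_
    · refine (pr_mono hG.adm _ _ ?_ η).trans h1
      rintro ξ ⟨i, hi1, hi2, hi3⟩
      exact ⟨i, hi1, by omega, hi3⟩
    · intro y hy1 hy2 d hd1 hd2
      exact hOk.str v hv1 hv2 (y - d) y (by omega) (by omega) (by omega)
    · have h2 : L.G v - 4 * L.w + L.w = L.G v - 3 * L.w := by omega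
      rw [h2]
      refine le_trans ?_ (hOk.sum v hv1 hv2)
      refine (Finset.sum_le_sum fun y _ => hyp_atb_mono hG.pos L.w y hst).trans ?_
      refine Finset.sum_le_sum_of_subset_of_nonneg ?_ fun y _ _ =>
        hyp_atb_nonneg hG.pos L.w (L.st v) y
      intro y hy
      rw [Finset.mem_Ico] at hy ⊢
      omega
  · -- holes
    intro v S η hv1 hv2 hgS heS hS hc ho
    have hc2 := hV.cell2 v hv1 hv2
    have hex := hyp_e_x0 hV hv2
    obtain ⟨θ', hθ', hell, hres⟩ := hOk.res v hv1 hv2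
    have hθ'0 : 0 ≤ θ' :=
      (hyp_vh hG.pos (L.e v - 1) (L.e v - 1)).trans
        (hres (L.e v - 1) (L.e v - 1) (by omega) le_rfl (by omega))
    obtain ⟨-, hIvp, -, hIG, -⟩ := hIM N r l
    have hG' := hIG L.w C1 hG
    obtain ⟨hm1, hm2, -, hm4⟩ := hMIR N
    have hvp' : ∀ z y, N - L.e v ≤ z → z ≤ y → y < N - (L.g v + 4 * L.w) + L.w →
        vp (mirr N r) (mirr N l) z y ≤ θ' := by
      intro z y hz hzy hy
      rw [hIvp z y hzy (by omega)]
      exact hres _ _ (by omega) (by omega) (by omega)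
    have h1 := hyp_mv hM (τ := τ) (w := L.w) (r := mirr N r) (l := mirr N l) (a := N - L.e v)
      (m := N - (L.g v + 4 * L.w))
      (E := N - (L.g v + 2 * L.w)) (S := mirS N S) (η := mir η) hK hG' hθ hτ (by omega) (by omega)
      (by omega) ?_ ?_ ?_ ?_ ?_ ?_ ?_
    · unfold pr at h1 ⊢
      rw [hm4]
      refine (ev_mono hG'.adm ?_ _ _ _).trans h1
      intro ζ
      unfold ind
      by_cases hz : mir ζ ∈ {ξ : Cfg N | ∃ i, L.g v + 4 * L.w ≤ i ∧ i < L.e v ∧ occ ξ i = false}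
      · have hz' : ζ ∈ {ξ : Cfg N | ∃ i, N - L.e v ≤ i ∧ i < N - (L.g v + 4 * L.w) ∧
            occ ξ i = true} := by
          obtain ⟨i, hi1, hi2, hi3⟩ := hz
          refine ⟨N - 1 - i, by omega, by omega, ?_⟩
          rw [hm2 ζ i (by omega)] at hi3
          simpa using hi3
        rw [if_pos hz, if_pos hz']
      · rw [if_neg hz]
        split_ifs <;> norm_num
    · rw [hyp_mirS (by omega)]
      exact fun h => heS h.1
    · rw [hyp_mirS (by omega)]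
      exact fun h => hgS h.1
    · intro x hx1 hx2
      have h2 : x = N - (N - x) := by omega
      rw [h2, hyp_mirS (by omega)]
      exact ⟨hS _ (by omega) (by omega), by omega, by omega⟩
    · exact hyp_cnt hMIR η (by omega) (by omega) hc
    · rw [hm2 η (N - L.e v) (by omega)]
      have h2 : N - 1 - (N - L.e v) = L.e v - 1 := by omega
      rw [h2, ho]
      rfl
    · intro y hy1 hy2 d hd1 hd2
      exact (hvp' (y - d) y (by omega) (by omega) hy2).trans hθ'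
    · have h2 : ∀ y ∈ Finset.Ico (N - L.e v) (N - (L.g v + 4 * L.w) + L.w),
          atb (mirr N r) (mirr N l) (1 / L.w) L.w (N - L.e v) y ≤
            L.w * (1 + 1 / (L.w : ℝ)) ^ L.w * θ' := by
        intro y hy
        rw [Finset.mem_Ico] at hy
        exact hyp_atb hG'.pos hw1 hθ'0 fun d hd1 hd2 => hvp' (y - d) y (by omega) (by omega) hy.2
      refine (Finset.sum_le_sum h2).trans ?_
      rw [Finset.sum_const, Nat.card_Ico, nsmul_eq_mul]
      have h3 : ((N - (L.g v + 4 * L.w) + L.w - (N - L.e v) : ℕ) : ℝ) ≤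
          (L.e v : ℝ) - L.g v := by
        have h4 : N - (L.g v + 4 * L.w) + L.w - (N - L.e v) ≤ L.e v - L.g v := by omega
        have h5 : ((L.e v - L.g v : ℕ) : ℝ) = (L.e v : ℝ) - L.g v := by
          rw [Nat.cast_sub (by omega)]
        rw [← h5]
        exact_mod_cast h4
      have h6 : 0 ≤ (L.w : ℝ) * (1 + 1 / (L.w : ℝ)) ^ L.w * θ' := by positivity
      have h7 := mul_le_mul_of_nonneg_right h3 h6
      have h8 : 0 ≤ θ * Λ ^ 12 := by positivity
      linarith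
  · -- absorption
    intro v a S η hv1 hv2 hga hag hAa haS hgS hS hc
    have hc2 := hV.cell2 v hv1 hv2
    have hex := hyp_e_x0 hV hv2
    have hSh := hOk.shal v hv1 hv2
    have hD1 : (1 : ℝ) ≤ Λ ^ 7 := one_le_pow₀ (by linarith)
    have hD0 : (0 : ℝ) < Λ ^ 7 := by linarith
    have hlm : (N : ℝ) ^ (-100 : ℝ) = ((N : ℝ) ^ 100)⁻¹ := by
      have h3 : (-100 : ℝ) = -((100 : ℕ) : ℝ) := by norm_num
      rw [h3, hyp_rpow hK]
    have hpoly := hyp_poly hK
    rw [← hΛ] at hpoly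
    have hN1 : (1 : ℝ) ≤ N := by
      have h13 : (1 : ℝ) ≤ Λ ^ 4 := one_le_pow₀ (by linarith)
      linarith
    have hmain := hQ N r l S a (L.g v - L.w) (L.g v) (L.g v + L.w) (L.g v + 4 * L.w) τ (Λ ^ 7)
      (Λ ^ 7)⁻¹ ((N : ℝ) ^ (-100 : ℝ)) η hG.adm hpos (by omega) (by omega) (by omega) (by omega)
      (by omega) (by omega) haS hgS hS (by positivity) (by rw [hlm]; positivity) ?_ ?_ hD1 ?_
      (by rw [hc]; omega)
    · refine hmain.trans (hyp_fin hK ?_ ?_)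
      · refine hyp_exp hK ?_
        set W : ℝ := ((L.g v + 4 * L.w : ℕ) : ℝ) - a with hW
        have hW0 : 0 < W := by
          rw [hW, sub_pos]
          exact_mod_cast (by omega : a < L.g v + 4 * L.w)
        have hW8 : W ≤ 8 * Λ ^ 2 := by
          have h2 : ((L.g v + 4 * L.w : ℕ) : ℝ) ≤ a + 8 * L.w := by
            exact_mod_cast (by omega : L.g v + 4 * L.w ≤ a + 8 * L.w)
          rw [hW]
          linarith
        have h2 : Real.log (1 / (N : ℝ) ^ (-100 : ℝ)) = 100 * Λ := by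
          rw [hlm, one_div, inv_inv, Real.log_pow]
          norm_num
          exact hΛ.symm
        rw [h2]
        have h3 : Real.log (2 * Λ ^ 7) ≤ 2 * Λ ^ 7 := by
          have := Real.log_le_sub_one_of_pos (by positivity : 0 < 2 * Λ ^ 7)
          linarith
        have h4 : W ^ 2 * (100 * Λ) ≤ 6400 * Λ ^ 5 := by
          have h5 : W ^ 2 ≤ (8 * Λ ^ 2) ^ 2 := pow_le_pow_left₀ hW0.le hW8 2
          calc W ^ 2 * (100 * Λ) ≤ (8 * Λ ^ 2) ^ 2 * (100 * Λ) :=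
                mul_le_mul_of_nonneg_right h5 (by positivity)
            _ = 6400 * Λ ^ 5 := by ring
        have h6 : W * Real.log (2 * Λ ^ 7) ≤ 16 * Λ ^ 9 := by
          calc W * Real.log (2 * Λ ^ 7) ≤ W * (2 * Λ ^ 7) := mul_le_mul_of_nonneg_left h3 hW0.le
            _ ≤ (8 * Λ ^ 2) * (2 * Λ ^ 7) := mul_le_mul_of_nonneg_right hW8 (by positivity)
            _ = 16 * Λ ^ 9 := by ring
        have h7 : Λ ^ 21 / 16384 ≤ (τ : ℝ) * (Λ ^ 7)⁻¹ / (4 * N * (W ^ 5 * (Λ ^ 7) ^ 2)) := by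
          have h8 : W ^ 5 ≤ (8 * Λ ^ 2) ^ 5 := pow_le_pow_left₀ hW0.le hW8 5
          have h9 : 8 * (N : ℝ) * Λ ^ 52 ≤ τ := by
            have h10 : 8 * (N : ℝ) * Λ ^ 12 * Λ ^ 40 ≤ 8 * (N : ℝ) * Λ ^ 12 * θ :=
              mul_le_mul_of_nonneg_left hθ (by positivity)
            calc 8 * (N : ℝ) * Λ ^ 52 = 8 * (N : ℝ) * Λ ^ 12 * Λ ^ 40 := by ring
              _ ≤ 8 * (N : ℝ) * Λ ^ 12 * θ := h10
              _ ≤ τ := hτ
          rw [div_le_div_iff₀ (by norm_num) (by positivity)]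
          have h11 : Λ ^ 21 * (4 * N * (W ^ 5 * (Λ ^ 7) ^ 2)) ≤
              Λ ^ 21 * (4 * N * ((8 * Λ ^ 2) ^ 5 * (Λ ^ 7) ^ 2)) := by
            refine mul_le_mul_of_nonneg_left ?_ (by positivity)
            refine mul_le_mul_of_nonneg_left ?_ (by positivity)
            exact mul_le_mul_of_nonneg_right h8 (by positivity)
          refine h11.trans ?_
          have h12 : Λ ^ 21 * (4 * N * ((8 * Λ ^ 2) ^ 5 * (Λ ^ 7) ^ 2)) =
              8 * (N : ℝ) * Λ ^ 52 * (Λ ^ 7)⁻¹ * 16384 := by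
            field_simp
            ring
          rw [h12]
          refine mul_le_mul_of_nonneg_right ?_ (by norm_num)
          exact mul_le_mul_of_nonneg_right h9 (by positivity)
        have h13 : 6400 * Λ ^ 5 + 16 * Λ ^ 9 + 10 * Λ ≤ Λ ^ 21 / 16384 := by
          have g1 : Λ ≤ Λ ^ 9 := by
            calc Λ = Λ ^ 1 := (pow_one Λ).symm
              _ ≤ Λ ^ 9 := pow_le_pow_right₀ (by linarith) (by norm_num)
          have g2 : Λ ^ 5 ≤ Λ ^ 9 := pow_le_pow_right₀ (by linarith) (by norm_num)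
          have g3 : Λ ^ 21 = Λ ^ 9 * Λ ^ 12 := by ring
          have g4 : (20000 : ℝ) ^ 12 ≤ Λ ^ 12 := pow_le_pow_left₀ (by norm_num) hK 12
          have g5 : Λ ^ 9 * (20000 : ℝ) ^ 12 ≤ Λ ^ 9 * Λ ^ 12 :=
            mul_le_mul_of_nonneg_left g4 (by positivity)
          rw [g3]
          have g6 : 0 < Λ ^ 9 := by positivity
          have g7 : (20000 : ℝ) ^ 12 ≥ 16384 * 6426 := by norm_num
          nlinarith
        linarith
      · have h2 : ∀ z x, z + L.w ≤ x → x < L.g v + 4 * L.w →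
            RR r l z x ≤ ((N : ℝ) ^ 11)⁻¹ := by
          intro z x hzx hx
          have h3 := hG.far z x hzx (by omega)
          have h4 : (-11 : ℝ) = -((11 : ℕ) : ℝ) := by norm_num
          rw [h4, hyp_rpow hK] at h3
          exact h3
        have h5 : ∑ z ∈ Finset.Ico a (L.g v - L.w), ∑ x ∈ Finset.Ico (L.g v) (L.g v + 4 * L.w),
            RR r l z x ≤ (16 * L.w ^ 2 : ℝ) * ((N : ℝ) ^ 11)⁻¹ := by
          have h6 : ∀ z ∈ Finset.Ico a (L.g v - L.w), ∑ x ∈ Finset.Ico (L.g v)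
              (L.g v + 4 * L.w), RR r l z x ≤ (4 * L.w : ℝ) * ((N : ℝ) ^ 11)⁻¹ := by
            intro z hz
            rw [Finset.mem_Ico] at hz
            have h7 : ∀ x ∈ Finset.Ico (L.g v) (L.g v + 4 * L.w),
                RR r l z x ≤ ((N : ℝ) ^ 11)⁻¹ := by
              intro x hx
              rw [Finset.mem_Ico] at hx
              exact h2 z x (by omega) hx.2
            refine (Finset.sum_le_sum h7).trans ?_
            rw [Finset.sum_const, Nat.card_Ico, nsmul_eq_mul, Nat.add_sub_cancel_left]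
            push_cast
            exact le_rfl
          refine (Finset.sum_le_sum h6).trans ?_
          rw [Finset.sum_const, Nat.card_Ico, nsmul_eq_mul]
          have h8 : ((L.g v - L.w - a : ℕ) : ℝ) ≤ 4 * L.w := by
            exact_mod_cast (by omega : L.g v - L.w - a ≤ 4 * L.w)
          have h9 : (0 : ℝ) ≤ (4 * L.w : ℝ) * ((N : ℝ) ^ 11)⁻¹ := by positivity
          have h10 := mul_le_mul_of_nonneg_right h8 h9
          refine h10.trans (le_of_eq ?_)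
          ring
        have h5' : ∑ z ∈ Finset.Ico a (L.g v), ∑ x ∈ Finset.Ico (L.g v + L.w)
            (L.g v + 4 * L.w), RR r l z x ≤ (16 * L.w ^ 2 : ℝ) * ((N : ℝ) ^ 11)⁻¹ := by
          have h6 : ∀ z ∈ Finset.Ico a (L.g v), ∑ x ∈ Finset.Ico (L.g v + L.w)
              (L.g v + 4 * L.w), RR r l z x ≤ (4 * L.w : ℝ) * ((N : ℝ) ^ 11)⁻¹ := by
            intro z hz
            rw [Finset.mem_Ico] at hz
            have h7 : ∀ x ∈ Finset.Ico (L.g v + L.w) (L.g v + 4 * L.w),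
                RR r l z x ≤ ((N : ℝ) ^ 11)⁻¹ := by
              intro x hx
              rw [Finset.mem_Ico] at hx
              exact h2 z x (by omega) hx.2
            refine (Finset.sum_le_sum h7).trans ?_
            rw [Finset.sum_const, Nat.card_Ico, nsmul_eq_mul]
            refine mul_le_mul_of_nonneg_right ?_ (by positivity)
            exact_mod_cast (by omega : L.g v + 4 * L.w - (L.g v + L.w) ≤ 4 * L.w)
          refine (Finset.sum_le_sum h6).trans ?_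
          rw [Finset.sum_const, Nat.card_Ico, nsmul_eq_mul]
          have h8 : ((L.g v - a : ℕ) : ℝ) ≤ 4 * L.w := by
            exact_mod_cast (by omega : L.g v - a ≤ 4 * L.w)
          have h9 : (0 : ℝ) ≤ (4 * L.w : ℝ) * ((N : ℝ) ^ 11)⁻¹ := by positivity
          have h10 := mul_le_mul_of_nonneg_right h8 h9
          refine h10.trans (le_of_eq ?_)
          ring
        have h11 : (L.w : ℝ) ^ 2 ≤ Λ ^ 4 := by
          have := pow_le_pow_left₀ hw0.le hwl 2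
          calc (L.w : ℝ) ^ 2 ≤ (Λ ^ 2) ^ 2 := this
            _ = Λ ^ 4 := by ring
        have h12 : 32 * (L.w : ℝ) ^ 2 * ((N : ℝ) ^ 11)⁻¹ ≤ N * ((N : ℝ) ^ 11)⁻¹ := by
          refine mul_le_mul_of_nonneg_right ?_ (by positivity)
          linarith
        have h13 : (N : ℝ) * ((N : ℝ) ^ 11)⁻¹ = ((N : ℝ) ^ 10)⁻¹ := by
          field_simp
        linarith
    · rw [hlm]
      refine inv_le_one_of_one_le₀ (one_le_pow₀ hN1)
    · intro b hb1 hb2
      refine ⟨?_, hG.low b (by omega) (by omega)⟩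
      have h2 := hSh.2 b (by omega) (by omega)
      rw [inv_le_iff_one_le_mul₀ hD0]
      linarith
    · intro z x hz hzx hx
      exact hSh.1 z x (by omega) hzx (by omega)

end Pool.Agent.Helper98.EX
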